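import Pool.Agent.helper83.LS.Spec

set_option autoImplicit false

/-!
Module ls:AB of project ls (MP_60c1a7_co): assembly of `br`.
-/

namespace LSH

theorem AB : AB_stmt := by
  intro p c h₀ h k s t Y X d e hd he hdis hcY hcX hpd hpe hde
  obtain ⟨hd1, hd2, hd3⟩ := hd
  obtain ⟨he1, he2, he3⟩ := he
  refine ⟨?_, ?_, ?_⟩
  · simp only [PT.shape, hd1, he1]
  · have hc : c ∉ Y ∪ X := by
      rw [Finset.mem_union]
      rintro (h1 | h1)
      · exact hcY h1
      · exact hcX h1
    rw [Finset.insert_val_of_notMem hc, ← Finset.disjUnion_eq_union Y X hdis]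
    simp only [PT.pts, hd2, he2]
    rfl
  · show (⟨p, c, h₀⟩ :: (att c h d ++ att c k e)).Pairwise NC
    rw [List.pairwise_cons, List.pairwise_append]
    refine ⟨?_, hd3, he3, hde⟩
    intro f hf
    rcases List.mem_append.mp hf with h1 | h1
    · exact hpd f h1
    · exact hpe f h1

end LSH
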